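import Mathlib
import Pool.Agent.N728.SP.Def

/-! MP_9c2ea5_nt, project SP (helper728), task SPT: strong prime number theorem from `S_ZP` and `S_TEL`. -/

set_option autoImplicit false

namespace Pool.Agent.N690.SP

open Finset Pool.Agent.N728.SP Pool.Agent.H410R2

/-- lower bound for `log N!` -/
theorem sl_lower (N : ℕ) : (N : ℝ) * Real.log N - N ≤ ∑ n ∈ Icc 1 N, Real.log n := by
  induction N with
  | zero => simp
  | succ N ih =>
    rw [Finset.sum_Icc_succ_top (by omega)]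
    rcases Nat.eq_zero_or_pos N with h0 | h0
    · subst h0; simp
    · have hN : (0 : ℝ) < N := by exact_mod_cast h0
      have h1 : Real.log ((N : ℝ) + 1) - Real.log N ≤ 1 / N := by
        rw [← Real.log_div (by positivity) hN.ne']
        have := Real.log_le_sub_one_of_pos (show (0 : ℝ) < ((N : ℝ) + 1) / N by positivity)
        refine this.trans (le_of_eq ?_)
        field_simp
        ring
      have h2 : (N : ℝ) * (Real.log ((N : ℝ) + 1) - Real.log N) ≤ 1 := by
        calc (N : ℝ) * (Real.log ((N : ℝ) + 1) - Real.log N) ≤ N * (1 / N) :=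
              mul_le_mul_of_nonneg_left h1 hN.le
          _ = 1 := by field_simp
      push_cast
      linarith

/-- upper bound for `log N!` -/
theorem sl_upper (N : ℕ) (hN1 : 1 ≤ N) :
    ∑ n ∈ Icc 1 N, Real.log n ≤ ((N : ℝ) + 1) * Real.log N - N + 1 := by
  induction N, hN1 using Nat.le_induction with
  | base => simp
  | succ N hN1 ih =>
    rw [Finset.sum_Icc_succ_top (by omega)]
    have hN : (0 : ℝ) < N := by exact_mod_cast hN1
    have h1 : 1 / ((N : ℝ) + 1) ≤ Real.log ((N : ℝ) + 1) - Real.log N := by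
      have h3 := Real.log_le_sub_one_of_pos (show (0 : ℝ) < (N : ℝ) / ((N : ℝ) + 1) by positivity)
      rw [Real.log_div hN.ne' (by positivity)] at h3
      have h4 : (N : ℝ) / ((N : ℝ) + 1) - 1 = -(1 / ((N : ℝ) + 1)) := by
        field_simp
        ring
      linarith
    have h2 : 1 ≤ ((N : ℝ) + 1) * (Real.log ((N : ℝ) + 1) - Real.log N) := by
      calc (1 : ℝ) = ((N : ℝ) + 1) * (1 / ((N : ℝ) + 1)) := by field_simp
        _ ≤ _ := mul_le_mul_of_nonneg_left h1 (by positivity)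
    push_cast
    linarith

/-- the sum of `log (x / n)` -/
theorem al_bounds (x : ℝ) (hx : 1 ≤ x) :
    ∑ n ∈ Icc 1 ⌊x⌋₊, Real.log (x / n) ≤ x ∧
      x - 2 - Real.log x ≤ ∑ n ∈ Icc 1 ⌊x⌋₊, Real.log (x / n) := by
  have hx0 : 0 < x := by linarith
  set N : ℕ := ⌊x⌋₊ with hN
  have hN1 : 1 ≤ N := by
    rw [hN, Nat.one_le_floor_iff]
    exact hx
  have hNx : (N : ℝ) ≤ x := Nat.floor_le hx0.le
  have hNx' : x < (N : ℝ) + 1 := Nat.lt_floor_add_one x
  have hN0 : (0 : ℝ) < N := by exact_mod_cast hN1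
  have e : ∑ n ∈ Icc 1 N, Real.log (x / n) = N * Real.log x - ∑ n ∈ Icc 1 N, Real.log n := by
    have : ∀ n ∈ Icc 1 N, Real.log (x / n) = Real.log x - Real.log n := by
      intro n hn
      have : (n : ℝ) ≠ 0 := by
        have := (Finset.mem_Icc.1 hn).1
        positivity
      exact Real.log_div hx0.ne' this
    rw [Finset.sum_congr rfl this, Finset.sum_sub_distrib, Finset.sum_const, Nat.card_Icc]
    simp
  rw [e]
  constructor
  · have h1 := sl_lower N
    have h2 : Real.log x - Real.log N ≤ x / N - 1 := by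
      rw [← Real.log_div hx0.ne' hN0.ne']
      exact Real.log_le_sub_one_of_pos (by positivity)
    have h3 : (N : ℝ) * (Real.log x - Real.log N) ≤ x - N := by
      calc (N : ℝ) * (Real.log x - Real.log N) ≤ N * (x / N - 1) :=
            mul_le_mul_of_nonneg_left h2 hN0.le
        _ = x - N := by field_simp
    linarith
  · have h1 := sl_upper N hN1
    have h2 : Real.log N ≤ Real.log x := Real.log_le_log hN0 hNx
    have h3 : ((N : ℝ) + 1) * Real.log N ≤ ((N : ℝ) + 1) * Real.log x :=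
      mul_le_mul_of_nonneg_left h2 (by positivity)
    linarith

/-- the coefficients -/
noncomputable def cc (n : ℕ) : ℂ := ((ArithmeticFunction.vonMangoldt n : ℝ) : ℂ) - 1

theorem PL_cc (x : ℝ) : PL cc x = ((psiLog1 x - ∑ n ∈ Icc 1 ⌊x⌋₊, Real.log (x / n) : ℝ) : ℂ) := by
  unfold PL psiLog1 cc
  push_cast
  rw [← Finset.sum_sub_distrib]
  apply Finset.sum_congr rfl
  intro n _
  ring

theorem PL_trivial (z L : ℝ) (hz : 1 ≤ z) (hL : Real.log z ≤ L) : ‖PL cc z‖ ≤ (L + 1) * z := by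
  have hL0 : 0 ≤ L := (Real.log_nonneg hz).trans hL
  have hz0 : 0 < z := by linarith
  have h1 : ‖PL cc z‖ ≤ ∑ n ∈ Icc 1 ⌊z⌋₊, (L + 1) * Real.log (z / n) := by
    unfold PL
    apply norm_sum_le_of_le
    intro n hn
    obtain ⟨hn1, hn2⟩ := Finset.mem_Icc.1 hn
    have hn0 : (0 : ℝ) < n := by exact_mod_cast hn1
    have hnz : (n : ℝ) ≤ z := (Nat.cast_le.2 hn2).trans (Nat.floor_le hz0.le)
    have hlog : 0 ≤ Real.log (z / n) := by
      apply Real.log_nonneg
      rw [le_div_iff₀ hn0]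
      linarith
    rw [norm_mul, Complex.norm_real, Real.norm_of_nonneg hlog]
    apply mul_le_mul_of_nonneg_right _ hlog
    have h2 : (cc n) = ((ArithmeticFunction.vonMangoldt n - 1 : ℝ) : ℂ) := by
      unfold cc
      push_cast
      rfl
    rw [h2, Complex.norm_real, Real.norm_eq_abs, abs_le]
    have h3 : 0 ≤ ArithmeticFunction.vonMangoldt n := ArithmeticFunction.vonMangoldt_nonneg
    have h4 : ArithmeticFunction.vonMangoldt n ≤ Real.log n := ArithmeticFunction.vonMangoldt_le_log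
    have h5 : Real.log n ≤ Real.log z := Real.log_le_log hn0 hnz
    constructor <;> linarith
  refine h1.trans ?_
  rw [← Finset.mul_sum]
  exact mul_le_mul_of_nonneg_left (al_bounds z hz).1 (by linarith)

/-- **The prime number theorem with a strong error term**, from `S_ZP` and `S_TEL`. -/
theorem t_SP (h1 : S_ZP) (h2 : S_TEL) : S_SP := by
  obtain ⟨l1, h1⟩ := h1
  -- the final inequality
  have hlim : Filter.Tendsto (fun l : ℝ => (l / 8) ^ 43 * Real.exp (-(l / 8))) Filter.atTop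
      (nhds 0) :=
    (Real.tendsto_pow_mul_exp_neg_atTop_nhds_zero 43).comp
      (Filter.tendsto_id.atTop_div_const (by norm_num))
  have hev := hlim.eventually (gt_mem_nhds (show (0 : ℝ) < 1 / (40 * 8 ^ 43) by positivity))
  obtain ⟨l2, hl2⟩ := Filter.eventually_atTop.1 hev
  refine ⟨max (max l1 l2) 2, ?_⟩
  intro l hl x hx1 hx2
  have hl1 : l1 ≤ l := (le_max_left _ _).trans ((le_max_left _ _).trans hl)
  have hl2' : l2 ≤ l := (le_max_right _ _).trans ((le_max_left _ _).trans hl)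
  have hl3 : 2 ≤ l := (le_max_right _ _).trans hl
  have hl0 : 0 < l := by linarith
  have hx0 : 0 < x := (Real.exp_pos _).trans_le hx1
  have hlx1 : l ^ 22 ≤ Real.log x := by
    rw [Real.le_log_iff_exp_le hx0]; exact hx1
  have hlx2 : Real.log x ≤ l ^ 42 := by
    rw [Real.log_le_iff_le_exp hx0]; exact hx2
  have hp : (2 : ℝ) * l ≤ l ^ 22 := by
    have h3 : (2 : ℝ) ≤ l ^ 21 := by
      calc (2 : ℝ) ≤ 2 ^ 21 := by norm_num
        _ ≤ l ^ 21 := pow_le_pow_left₀ (by norm_num) hl3 21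
    calc (2 : ℝ) * l ≤ l ^ 21 * l := mul_le_mul_of_nonneg_right h3 hl0.le
      _ = l ^ 22 := by ring
  have hp' : (4 : ℝ) * l ≤ l ^ 22 := by
    have h3 : (4 : ℝ) ≤ l ^ 21 := by
      calc (4 : ℝ) ≤ 2 ^ 21 := by norm_num
        _ ≤ l ^ 21 := pow_le_pow_left₀ (by norm_num) hl3 21
    calc (4 : ℝ) * l ≤ l ^ 21 * l := mul_le_mul_of_nonneg_right h3 hl0.le
      _ = l ^ 22 := by ring
  set K : ℕ := ⌈2 * l⌉₊ with hK
  have hK1 : 2 * l ≤ K := Nat.le_ceil _
  have hK2 : (K : ℝ) < 2 * l + 1 := Nat.ceil_lt_add_one (by linarith)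
  have hK3 : (K : ℝ) ≤ 3 * l := by linarith
  have hK4 : 1 ≤ K := by
    have : (1 : ℝ) ≤ K := by linarith
    exact_mod_cast this
  have hxK : Real.exp (l ^ 22 / 2) ≤ x * Real.exp (-((K : ℝ) / 2)) := by
    calc Real.exp (l ^ 22 / 2) ≤ Real.exp (l ^ 22 - K / 2) := by
          apply Real.exp_le_exp.2; linarith
      _ = Real.exp (l ^ 22) * Real.exp (-((K : ℝ) / 2)) := by
          rw [← Real.exp_add]; congr 1
      _ ≤ x * Real.exp (-((K : ℝ) / 2)) := mul_le_mul_of_nonneg_right hx1 (Real.exp_pos _).le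
  have hone : (1 : ℝ) ≤ Real.exp (l ^ 22 / 2) := Real.one_le_exp (by positivity)
  have h3 := h2 cc x (Real.exp (-(7 * l / 8))) (l ^ 42 + 1) K hK4 (Real.exp_pos _).le
    (by positivity) (hone.trans hxK)
    (fun z hz1 hz2 => by
      have := h1 l hl1 z (hxK.trans hz1) (hz2.trans hx2)
      rw [mul_comm]
      exact this)
    (fun z hz1 hz2 => by
      apply PL_trivial z (l ^ 42) hz1
      exact (Real.log_le_log (by linarith) hz2).trans hlx2)
  have hx1' : 1 ≤ x := (Real.one_le_exp (by positivity)).trans hx1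
  obtain ⟨a1, a2⟩ := al_bounds x hx1'
  have h4 : |psiLog1 x - x| ≤ ‖PL cc x‖ + (2 + l ^ 42) := by
    rw [PL_cc, Complex.norm_real, Real.norm_eq_abs]
    have : psiLog1 x - x = (psiLog1 x - ∑ n ∈ Icc 1 ⌊x⌋₊, Real.log (x / n)) +
        (∑ n ∈ Icc 1 ⌊x⌋₊, Real.log (x / n) - x) := by ring
    rw [this]
    refine (abs_add_le _ _).trans ?_
    gcongr
    rw [abs_le]
    constructor <;> nlinarith
  refine h4.trans ?_
  -- the sizes
  have e1 : Real.exp (-((K : ℝ) / 2)) ≤ Real.exp (-(3 * l / 4)) * Real.exp (-(l / 8)) := by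
    rw [← Real.exp_add]
    apply Real.exp_le_exp.2
    linarith
  have e2 : Real.exp (-(7 * l / 8)) = Real.exp (-(3 * l / 4)) * Real.exp (-(l / 8)) := by
    rw [← Real.exp_add]
    congr 1
    ring
  have e3 : (1 : ℝ) ≤ x * (Real.exp (-(3 * l / 4)) * Real.exp (-(l / 8))) := by
    calc (1 : ℝ) ≤ Real.exp (l ^ 22 / 2) := hone
      _ ≤ x * Real.exp (-((K : ℝ) / 2)) := hxK
      _ ≤ _ := mul_le_mul_of_nonneg_left e1 hx0.le
  set W : ℝ := x * (Real.exp (-(3 * l / 4)) * Real.exp (-(l / 8))) with hW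
  have hW0 : 0 ≤ W := by positivity
  have f1 : (4 * (K : ℝ) + 1) * (l ^ 42 + 1) * x * Real.exp (-((K : ℝ) / 2)) ≤
      (13 * l) * (2 * l ^ 42) * W := by
    have g1 : 4 * (K : ℝ) + 1 ≤ 13 * l := by linarith
    have g2 : l ^ 42 + 1 ≤ 2 * l ^ 42 := by
      have : (1 : ℝ) ≤ l ^ 42 := one_le_pow₀ (by linarith)
      linarith
    calc (4 * (K : ℝ) + 1) * (l ^ 42 + 1) * x * Real.exp (-((K : ℝ) / 2))
        = (4 * (K : ℝ) + 1) * (l ^ 42 + 1) * (x * Real.exp (-((K : ℝ) / 2))) := by ring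
      _ ≤ (13 * l) * (2 * l ^ 42) * W := by
          have := mul_le_mul_of_nonneg_left e1 hx0.le
          gcongr
  have f2 : (K : ℝ) ^ 2 * Real.exp (-(7 * l / 8)) * x ≤ (3 * l) ^ 2 * W := by
    rw [e2, hW]
    calc (K : ℝ) ^ 2 * (Real.exp (-(3 * l / 4)) * Real.exp (-(l / 8))) * x
        = (K : ℝ) ^ 2 * (x * (Real.exp (-(3 * l / 4)) * Real.exp (-(l / 8)))) := by ring
      _ ≤ _ := by gcongr
  have f3 : (2 : ℝ) + l ^ 42 ≤ 2 * l ^ 42 * W := by
    have g1 : (2 : ℝ) ≤ l ^ 42 := by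
      calc (2 : ℝ) ≤ 2 ^ 42 := by norm_num
        _ ≤ l ^ 42 := pow_le_pow_left₀ (by norm_num) hl3 42
    nlinarith
  have f4 : (13 * l) * (2 * l ^ 42) + (3 * l) ^ 2 + 2 * l ^ 42 ≤ 40 * l ^ 43 := by
    have g1 : l ^ 2 ≤ l ^ 43 := pow_le_pow_right₀ (by linarith) (by norm_num)
    have g2 : 2 * l ^ 42 ≤ l ^ 43 := by
      calc 2 * l ^ 42 ≤ l * l ^ 42 := mul_le_mul_of_nonneg_right hl3 (by positivity)
        _ = l ^ 43 := by ring
    have g3 : (13 * l) * (2 * l ^ 42) = 26 * l ^ 43 := by ring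
    rw [g3]
    nlinarith
  have f5 : 40 * l ^ 43 * Real.exp (-(l / 8)) ≤ 1 := by
    have := hl2 l hl2'
    rw [div_pow, lt_div_iff₀ (by positivity)] at this
    have g1 : l ^ 43 / 8 ^ 43 * Real.exp (-(l / 8)) * (40 * 8 ^ 43) =
        40 * l ^ 43 * Real.exp (-(l / 8)) := by
      field_simp
    rw [g1] at this
    exact this.le
  calc ‖PL cc x‖ + (2 + l ^ 42)
      ≤ (13 * l) * (2 * l ^ 42) * W + (3 * l) ^ 2 * W + 2 * l ^ 42 * W := by linarith
    _ = ((13 * l) * (2 * l ^ 42) + (3 * l) ^ 2 + 2 * l ^ 42) * W := by ring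
    _ ≤ 40 * l ^ 43 * W := mul_le_mul_of_nonneg_right f4 hW0
    _ = (40 * l ^ 43 * Real.exp (-(l / 8))) * (x * Real.exp (-(3 * l / 4))) := by rw [hW]; ring
    _ ≤ 1 * (x * Real.exp (-(3 * l / 4))) := mul_le_mul_of_nonneg_right f5 (by positivity)
    _ = x * Real.exp (-(3 * l / 4)) := one_mul _

end Pool.Agent.N690.SP
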